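import Mathlib
import Pool.Agent.H26.Link2

set_option autoImplicit false

open Pool.Agent.H26.Link

namespace Pool.Agent.Results.MP_7e9539_an.Proof

theorem result (M : HM) (F : Sub M) (hF : Tern F) (h : TernHer F) : LinkHer F := her hF h

end Pool.Agent.Results.MP_7e9539_an.Proof
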